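import Mathlib

set_option autoImplicit false

/-!
# The Lyndon positivity property fails for GL.3 and for Grz.3
-/

namespace Pool.Agent.Results.MP_4f615a_lc.NoLPP

/-- Modal formulas built from the literals `p`, `¬ p` and the constants with `∧, ∨, ◇, □`. -/
inductive Fm : Type
  | pos : ℕ → Fm
  | neg : ℕ → Fm
  | top : Fm
  | bot : Fm
  | and : Fm → Fm → Fm
  | or : Fm → Fm → Fm
  | dia : Fm → Fm
  | box : Fm → Fm

namespace Fm

/-- The negation of a formula, by De Morgan and modal duality laws. -/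
def compl : Fm → Fm
  | pos n => neg n
  | neg n => pos n
  | top => bot
  | bot => top
  | and φ ψ => or φ.compl ψ.compl
  | or φ ψ => and φ.compl ψ.compl
  | dia φ => box φ.compl
  | box φ => dia φ.compl

/-- The biconditional. -/
def iff (φ ψ : Fm) : Fm := and (or φ.compl ψ) (or ψ.compl φ)

/-- The variables of a formula. -/
def vars : Fm → Set ℕ
  | pos n => {n}
  | neg n => {n}
  | top => ∅
  | bot => ∅
  | and φ ψ => φ.vars ∪ ψ.vars
  | or φ ψ => φ.vars ∪ ψ.vars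
  | dia φ => φ.vars
  | box φ => φ.vars

/-- No literal `¬ p` with `p ∈ P` occurs in the formula. -/
def PosIn (P : Set ℕ) : Fm → Prop
  | pos _ => True
  | neg n => n ∉ P
  | top => True
  | bot => True
  | and φ ψ => φ.PosIn P ∧ ψ.PosIn P
  | or φ ψ => φ.PosIn P ∧ ψ.PosIn P
  | dia φ => φ.PosIn P
  | box φ => φ.PosIn P

end Fm

/-- Truth of a formula at a point of a Kripke model. -/
def Sat {W : Type} (R : W → W → Prop) (V : W → ℕ → Prop) : W → Fm → Prop
  | x, .pos n => V x n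
  | x, .neg n => ¬ V x n
  | _, .top => True
  | _, .bot => False
  | x, .and φ ψ => Sat R V x φ ∧ Sat R V x ψ
  | x, .or φ ψ => Sat R V x φ ∨ Sat R V x ψ
  | x, .dia φ => ∃ y, R x y ∧ Sat R V y φ
  | x, .box φ => ∀ y, R x y → Sat R V y φ

/-- Strict linear orders. -/
def StrictLin {W : Type} (R : W → W → Prop) : Prop :=
  (∀ x, ¬ R x x) ∧ (∀ x y z, R x y → R y z → R x z) ∧ ∀ x y, R x y ∨ x = y ∨ R y x

/-- Reflexive linear orders. -/
def ReflLin {W : Type} (R : W → W → Prop) : Prop :=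
  (∀ x, R x x) ∧ (∀ x y z, R x y → R y z → R x z) ∧ (∀ x y, R x y → R y x → x = y) ∧
    ∀ x y, R x y ∨ R y x

/-- `GL.3`, the logic of all finite strict linear orders. -/
def GL3 : Set Fm :=
  {φ | ∀ (W : Type) (R : W → W → Prop), Finite W → StrictLin R → ∀ V x, Sat R V x φ}

/-- `Grz.3`, the logic of all finite reflexive linear orders. -/
def Grz3 : Set Fm :=
  {φ | ∀ (W : Type) (R : W → W → Prop), Finite W → ReflLin R → ∀ V x, Sat R V x φ}

/-- Modal algebras. -/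
class ModalAlgebra (A : Type) extends BooleanAlgebra A where
  /-- the operator -/
  dia : A → A
  dia_bot : dia ⊥ = ⊥
  dia_sup : ∀ a b, dia (a ⊔ b) = dia a ⊔ dia b

/-- The value of a formula in a modal algebra. -/
def val {A : Type} [ModalAlgebra A] (v : ℕ → A) : Fm → A
  | .pos n => v n
  | .neg n => (v n)ᶜ
  | .top => ⊤
  | .bot => ⊥
  | .and φ ψ => val v φ ⊓ val v ψ
  | .or φ ψ => val v φ ⊔ val v ψ
  | .dia φ => ModalAlgebra.dia (val v φ)
  | .box φ => (ModalAlgebra.dia (val v φ)ᶜ)ᶜ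

/-- The algebra validates the logic. -/
def Validates (A : Type) [ModalAlgebra A] (L : Set Fm) : Prop :=
  ∀ φ ∈ L, ∀ v : ℕ → A, val v φ = ⊤

/-- The formula is monotone in the variables of `P` in the logic `L`. -/
def MonotoneIn (L : Set Fm) (P : Set ℕ) (φ : Fm) : Prop :=
  ∀ (A : Type) (_ : ModalAlgebra A), Validates A L → ∀ v w : ℕ → A,
    (∀ n ∉ P, v n = w n) → (∀ n ∈ P, v n ≤ w n) → val v φ ≤ val w φ

/-- The Lyndon positivity property. -/
def LPP (L : Set Fm) : Prop :=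
  ∀ P R : Finset ℕ, Disjoint P R → ∀ φ : Fm, φ.vars ⊆ ↑(P ∪ R) → MonotoneIn L P φ →
    ∃ α : Fm, α.vars ⊆ ↑(P ∪ R) ∧ α.PosIn P ∧ φ.iff α ∈ L

/-! ### Semantics of negation and substitution -/

theorem sat_compl {W : Type} (R : W → W → Prop) (V : W → ℕ → Prop) (φ : Fm) :
    ∀ x, Sat R V x φ.compl ↔ ¬ Sat R V x φ := by
  induction φ with
  | pos n => intro x; exact Iff.rfl
  | neg n => intro x; exact not_not.symm
  | top => intro x; simp [Sat, Fm.compl]
  | bot => intro x; simp [Sat, Fm.compl]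
  | and φ ψ ih1 ih2 => intro x; simp only [Sat, Fm.compl, ih1, ih2]; tauto
  | or φ ψ ih1 ih2 => intro x; simp only [Sat, Fm.compl, ih1, ih2]; tauto
  | dia φ ih => intro x; simp only [Sat, Fm.compl, ih]; push Not; rfl
  | box φ ih => intro x; simp only [Sat, Fm.compl, ih]; push Not; rfl

theorem sat_iff {W : Type} (R : W → W → Prop) (V : W → ℕ → Prop) (φ ψ : Fm) (x : W) :
    Sat R V x (φ.iff ψ) ↔ (Sat R V x φ ↔ Sat R V x ψ) := by
  simp only [Fm.iff, Sat, sat_compl]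
  tauto

theorem val_compl {A : Type} [ModalAlgebra A] (v : ℕ → A) (φ : Fm) :
    val v φ.compl = (val v φ)ᶜ := by
  induction φ with
  | pos n => rfl
  | neg n => exact (compl_compl _).symm
  | top => exact compl_top.symm
  | bot => exact compl_bot.symm
  | and φ ψ ih1 ih2 => rw [Fm.compl, val, val, ih1, ih2, compl_inf]
  | or φ ψ ih1 ih2 => rw [Fm.compl, val, val, ih1, ih2, compl_sup]
  | dia φ ih => rw [Fm.compl, val, val, ih, compl_compl]
  | box φ ih => rw [Fm.compl, val, val, ih, compl_compl]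

/-- The literals are raised: the variable `n < 3` becomes `n ∨ (n + 4)`. -/
def raise : Fm → Fm
  | .pos n => if n < 3 then .or (.pos n) (.pos (n + 4)) else .pos n
  | .neg n => if n < 3 then .and (.neg n) (.neg (n + 4)) else .neg n
  | .top => .top
  | .bot => .bot
  | .and φ ψ => .and (raise φ) (raise ψ)
  | .or φ ψ => .or (raise φ) (raise ψ)
  | .dia φ => .dia (raise φ)
  | .box φ => .box (raise φ)

/-- The raised valuation. -/
def up {W : Type} (V : W → ℕ → Prop) : W → ℕ → Prop :=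
  fun x n => V x n ∨ (n < 3 ∧ V x (n + 4))

theorem sat_raise {W : Type} (R : W → W → Prop) (V : W → ℕ → Prop) (φ : Fm) :
    ∀ x, Sat R V x (raise φ) ↔ Sat R (up V) x φ := by
  induction φ with
  | pos n =>
    intro x
    by_cases h : n < 3 <;> simp [raise, h, Sat, up]
  | neg n =>
    intro x
    by_cases h : n < 3 <;> simp [raise, h, Sat, up]
  | top => intro x; exact Iff.rfl
  | bot => intro x; exact Iff.rfl
  | and φ ψ ih1 ih2 => intro x; simp only [raise, Sat, ih1, ih2]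
  | or φ ψ ih1 ih2 => intro x; simp only [raise, Sat, ih1, ih2]
  | dia φ ih => intro x; simp only [raise, Sat, ih]
  | box φ ih => intro x; simp only [raise, Sat, ih]

/-- The joint valuation. -/
def joint {A : Type} (v w : ℕ → A) : ℕ → A := fun n => if n < 4 then v n else w (n - 4)

theorem val_raise {A : Type} [ModalAlgebra A] (v w : ℕ → A) (h1 : ∀ n, 3 ≤ n → v n = w n)
    (h2 : ∀ n < 3, v n ≤ w n) (φ : Fm) (h : ∀ n ∈ φ.vars, n < 4) :
    val (joint v w) (raise φ) = val w φ := by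
  have key : ∀ n < 3, joint v w n ⊔ joint v w (n + 4) = w n := by
    intro n hn
    have e1 : joint v w n = v n := if_pos (by omega)
    have e2 : joint v w (n + 4) = w n := by
      rw [joint, if_neg (by omega), Nat.add_sub_cancel]
    rw [e1, e2, sup_eq_right]
    exact h2 n hn
  induction φ with
  | pos n =>
    have hn : n < 4 := h n rfl
    by_cases h3 : n < 3
    · simp only [raise, if_pos h3, val]
      exact key n h3
    · simp only [raise, if_neg h3, val]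
      rw [joint, if_pos hn, h1 n (by omega)]
  | neg n =>
    have hn : n < 4 := h n rfl
    by_cases h3 : n < 3
    · simp only [raise, if_pos h3, val]
      rw [← compl_sup, key n h3]
    · simp only [raise, if_neg h3, val]
      rw [joint, if_pos hn, h1 n (by omega)]
  | top => rfl
  | bot => rfl
  | and φ ψ ih1 ih2 =>
    rw [raise, val, val, ih1 fun n hn => h n (Or.inl hn), ih2 fun n hn => h n (Or.inr hn)]
  | or φ ψ ih1 ih2 =>
    rw [raise, val, val, ih1 fun n hn => h n (Or.inl hn), ih2 fun n hn => h n (Or.inr hn)]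
  | dia φ ih => rw [raise, val, val, ih h]
  | box φ ih => rw [raise, val, val, ih h]

theorem val_joint {A : Type} [ModalAlgebra A] (v w : ℕ → A) (φ : Fm)
    (h : ∀ n ∈ φ.vars, n < 4) : val (joint v w) φ = val v φ := by
  induction φ with
  | pos n =>
    have hn : n < 4 := h n rfl
    simp only [val, joint, if_pos hn]
  | neg n =>
    have hn : n < 4 := h n rfl
    simp only [val, joint, if_pos hn]
  | top => rfl
  | bot => rfl
  | and φ ψ ih1 ih2 =>
    rw [val, val, ih1 fun n hn => h n (Or.inl hn), ih2 fun n hn => h n (Or.inr hn)]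
  | or φ ψ ih1 ih2 =>
    rw [val, val, ih1 fun n hn => h n (Or.inl hn), ih2 fun n hn => h n (Or.inr hn)]
  | dia φ ih => rw [val, val, ih h]
  | box φ ih => rw [val, val, ih h]

/-- Monotonicity in all algebras from monotonicity on frames. -/
theorem monotone_of (L : Set Fm) (φ : Fm) (h : ∀ n ∈ φ.vars, n < 4)
    (hL : Fm.or φ.compl (raise φ) ∈ L) : MonotoneIn L {0, 1, 2} φ := by
  intro A _ hA v w h1 h2
  have h3 := hA _ hL (joint v w)
  rw [val, val_compl, val_joint v w φ h, val_raise v w ?_ ?_ φ h] at h3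
  · have h4 : (val v φ)ᶜ ⊔ val w φ = ⊤ := h3
    rw [← himp_eq_top_iff, himp_eq, sup_comm]
    exact h4
  · intro n hn
    refine h1 n ?_
    simp only [Set.mem_insert_iff, Set.mem_singleton_iff]
    omega
  · intro n hn
    refine h2 n ?_
    simp only [Set.mem_insert_iff, Set.mem_singleton_iff]
    omega

/-- The modal depth. -/
def depth : Fm → ℕ
  | .pos _ => 0
  | .neg _ => 0
  | .top => 0
  | .bot => 0
  | .and φ ψ => max (depth φ) (depth ψ)
  | .or φ ψ => max (depth φ) (depth ψ)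
  | .dia φ => depth φ + 1
  | .box φ => depth φ + 1

/-- Positive formulas are preserved by graded directed bisimulations. -/
theorem preserve {W W' : Type} (R : W → W → Prop) (R' : W' → W' → Prop) (V : W → ℕ → Prop)
    (V' : W' → ℕ → Prop) (P : Set ℕ) (Z : ℕ → W → W' → Prop)
    (hP : ∀ n x x', Z n x x' → ∀ i, V x i → V' x' i)
    (hQ : ∀ n x x', Z n x x' → ∀ i ∉ P, V' x' i → V x i)
    (hf : ∀ n x x', Z (n + 1) x x' → ∀ y, R x y → ∃ y', R' x' y' ∧ Z n y y')
    (hb : ∀ n x x', Z (n + 1) x x' → ∀ y', R' x' y' → ∃ y, R x y ∧ Z n y y') (α : Fm)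
    (hα : α.PosIn P) :
    ∀ n x x', depth α ≤ n → Z n x x' → Sat R V x α → Sat R' V' x' α := by
  induction α with
  | pos i => exact fun n x x' _ hz h => hP n x x' hz i h
  | neg i => exact fun n x x' _ hz h h' => h (hQ n x x' hz i hα h')
  | top => exact fun _ _ _ _ _ _ => trivial
  | bot => exact fun _ _ _ _ _ h => h
  | and φ ψ ih1 ih2 =>
    exact fun n x x' hn hz h => ⟨ih1 hα.1 n x x' ((le_max_left _ _).trans hn) hz h.1,
      ih2 hα.2 n x x' ((le_max_right _ _).trans hn) hz h.2⟩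
  | or φ ψ ih1 ih2 =>
    exact fun n x x' hn hz h => h.imp (ih1 hα.1 n x x' ((le_max_left _ _).trans hn) hz)
      (ih2 hα.2 n x x' ((le_max_right _ _).trans hn) hz)
  | dia φ ih =>
    intro n x x' hn hz h
    have hn' : depth φ + 1 ≤ n := hn
    obtain ⟨m, rfl⟩ : ∃ m, n = m + 1 := ⟨n - 1, by omega⟩
    obtain ⟨y, hy, hs⟩ := h
    obtain ⟨y', hy', hz'⟩ := hf m x x' hz y hy
    exact ⟨y', hy', ih hα m y y' (by omega) hz' hs⟩
  | box φ ih =>
    intro n x x' hn hz h y' hy'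
    have hn' : depth φ + 1 ≤ n := hn
    obtain ⟨m, rfl⟩ : ∃ m, n = m + 1 := ⟨n - 1, by omega⟩
    obtain ⟨y, hy, hz'⟩ := hb m x x' hz y' hy'
    exact ih hα m y y' (by omega) hz' (h y hy)

/-! ### The logic `GL.3` -/

/-- `□ (c ∨ a ∨ (b ∧ □ c)) ∧ (□ (c ∨ a) ∨ ◇ (a ∧ ◇ ¬ c))` with `a, b, c = 0, 1, 2`. -/
def fGL : Fm :=
  .and (.box (.or (.pos 2) (.or (.pos 0) (.and (.pos 1) (.box (.pos 2))))))
    (.or (.box (.or (.pos 2) (.pos 0))) (.dia (.and (.pos 0) (.dia (.neg 2)))))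

theorem fGL_vars : ∀ n ∈ fGL.vars, n < 4 := by
  intro n hn
  simp only [fGL, Fm.vars, Set.mem_union, Set.mem_singleton_iff] at hn
  omega

theorem fGL_mono : Fm.or fGL.compl (raise fGL) ∈ GL3 := by
  intro W R _ ⟨_, htr, hco⟩ V x
  rw [Sat, sat_compl, sat_raise]
  by_contra hcon
  rw [not_or, not_not] at hcon
  obtain ⟨⟨h1, h2⟩, h3⟩ := hcon
  have hup : ∀ y n, V y n → up V y n := fun y n h => Or.inl h
  refine h3 ⟨?_, ?_⟩
  · intro y hy
    rcases h1 y hy with h | h | ⟨h, h'⟩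
    · exact Or.inl (hup _ _ h)
    · exact Or.inr (Or.inl (hup _ _ h))
    · exact Or.inr (Or.inr ⟨hup _ _ h, fun z hz => hup _ _ (h' z hz)⟩)
  · by_contra h4
    have h5 : ¬ Sat R (up V) x (.box (.or (.pos 2) (.pos 0))) := fun h => h4 (Or.inl h)
    have h6 : ¬ Sat R (up V) x (.dia (.and (.pos 0) (.dia (.neg 2)))) := fun h => h4 (Or.inr h)
    rcases h2 with h2 | ⟨s, hs, hsa, t, ht, htc⟩
    · exact h5 fun y hy => (h2 y hy).imp (hup _ _) (hup _ _)
    · refine h5 fun y hy => ?_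
      rcases hco y s with hys | rfl | hsy
      · rcases h1 y hy with h | h | ⟨_, h'⟩
        · exact Or.inl (hup _ _ h)
        · exact Or.inr (hup _ _ h)
        · exact absurd (h' t (htr _ _ _ hys ht)) htc
      · exact Or.inr (hup _ _ hsa)
      · by_contra h7
        exact h6 ⟨s, hs, hup _ _ hsa, y, hsy, fun h => h7 (Or.inl h)⟩

/-- The strict order with `N + 3` points, the root is the last one. -/
def RN (N : ℕ) (x y : Fin (N + 3)) : Prop := y < x

theorem RN_lin (N : ℕ) : StrictLin (RN N) :=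
  ⟨fun x => lt_irrefl x, fun _ _ _ h1 h2 => lt_trans h2 h1, fun x y => by
    rcases lt_trichotomy x y with h | h | h
    · exact Or.inr (Or.inr h)
    · exact Or.inr (Or.inl h)
    · exact Or.inl h⟩

/-- The word `∅ a b c^N`. -/
def VN (N : ℕ) (x : Fin (N + 3)) (i : ℕ) : Prop :=
  (i = 0 ∧ x.1 = N + 1) ∨ (i = 1 ∧ x.1 = N) ∨ (i = 2 ∧ x.1 < N)

/-- The word `∅ b ac (bc)^N`. -/
def VN' (N : ℕ) (x : Fin (N + 3)) (i : ℕ) : Prop :=
  (i = 0 ∧ x.1 = N) ∨ (i = 1 ∧ (x.1 < N ∨ x.1 = N + 1)) ∨ (i = 2 ∧ x.1 ≤ N)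

/-- The directed bisimulation. -/
def ZN (N : ℕ) (n : ℕ) (x x' : Fin (N + 3)) : Prop :=
  n ≤ N ∧ (x.1 = N + 1 → x'.1 = N) ∧ (x.1 = N → x'.1 < N ∨ x'.1 = N + 1) ∧
    (x.1 < N → x'.1 ≤ N) ∧ (x.1 = x'.1 ∨ (n ≤ x.1 ∧ n ≤ x'.1)) ∧ (x.1 = N + 2 ↔ x'.1 = N + 2)

theorem zn_forth (N n : ℕ) (x x' : Fin (N + 3)) (h : ZN N (n + 1) x x') (y : Fin (N + 3))
    (hy : RN N x y) : ∃ y', RN N x' y' ∧ ZN N n y y' := by
  have hy' : y.1 < x.1 := hy
  have hx := x.2
  have hx' := x'.2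
  obtain ⟨h0, h1, h2, h3, h4, h5⟩ := h
  suffices H : ∃ k, k < x'.1 ∧ (y.1 = N + 1 → k = N) ∧ (y.1 = N → k < N ∨ k = N + 1) ∧
      (y.1 < N → k ≤ N) ∧ (y.1 = k ∨ (n ≤ y.1 ∧ n ≤ k)) ∧ (y.1 = N + 2 ↔ k = N + 2) by
    obtain ⟨k, hk, H⟩ := H
    exact ⟨⟨k, by omega⟩, hk, by omega, H⟩
  by_cases c1 : y.1 = N + 1
  · exact ⟨N, by omega⟩
  by_cases c2 : y.1 = N
  · by_cases c3 : x.1 = N + 2
    · exact ⟨N + 1, by omega⟩
    · exact ⟨N - 1, by omega⟩
  · by_cases c3 : y.1 < x'.1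
    · exact ⟨y.1, by omega⟩
    · exact ⟨x'.1 - 1, by omega⟩

theorem zn_back (N n : ℕ) (x x' : Fin (N + 3)) (h : ZN N (n + 1) x x') (y' : Fin (N + 3))
    (hy : RN N x' y') : ∃ y, RN N x y ∧ ZN N n y y' := by
  have hy' : y'.1 < x'.1 := hy
  have hx := x.2
  have hx' := x'.2
  obtain ⟨h0, h1, h2, h3, h4, h5⟩ := h
  suffices H : ∃ k, k < x.1 ∧ (k = N + 1 → y'.1 = N) ∧ (k = N → y'.1 < N ∨ y'.1 = N + 1) ∧
      (k < N → y'.1 ≤ N) ∧ (k = y'.1 ∨ (n ≤ k ∧ n ≤ y'.1)) ∧ (k = N + 2 ↔ y'.1 = N + 2) by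
    obtain ⟨k, hk, H⟩ := H
    exact ⟨⟨k, by omega⟩, hk, by omega, H⟩
  by_cases c1 : y'.1 = N + 1
  · exact ⟨N, by omega⟩
  by_cases c2 : y'.1 = N
  · by_cases c3 : x.1 = N + 2
    · exact ⟨N + 1, by omega⟩
    · exact ⟨N - 1, by omega⟩
  · by_cases c3 : y'.1 < x.1
    · exact ⟨y'.1, by omega⟩
    · exact ⟨x.1 - 1, by omega⟩

theorem not_GL3 : ¬ LPP GL3 := by
  intro hL
  obtain ⟨α, -, hpos, hiff⟩ := hL {0, 1, 2} ∅ (Finset.disjoint_empty_right _) fGL
    (by
      intro n hn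
      simp only [fGL, Fm.vars, Set.mem_union, Set.mem_singleton_iff] at hn
      simp only [Finset.union_empty, Finset.coe_insert, Finset.coe_singleton,
        Set.mem_insert_iff, Set.mem_singleton_iff]
      omega)
    (by
      have h := monotone_of GL3 fGL fGL_vars fGL_mono
      simpa using h)
  have hpres := fun N => preserve (RN N) (RN N) (VN N) (VN' N) {0, 1, 2} (ZN N)
    (by
      intro n x x' ⟨_, h1, h2, h3, _, _⟩ i hi
      unfold VN at hi
      unfold VN'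
      omega)
    (by
      intro n x x' _ i hi hv
      exfalso
      apply hi
      simp only [Set.mem_insert_iff, Set.mem_singleton_iff]
      unfold VN' at hv
      omega)
    (zn_forth N) (zn_back N) α (by simpa using hpos)
  obtain ⟨N, hN⟩ : ∃ N, N = depth α := ⟨_, rfl⟩
  let ρ : Fin (N + 3) := ⟨N + 2, by omega⟩
  have h1 : Sat (RN N) (VN N) ρ fGL := by
    refine ⟨?_, Or.inr ⟨⟨N + 1, by omega⟩, ?_, Or.inl ⟨rfl, rfl⟩, ⟨N, by omega⟩, ?_, ?_⟩⟩
    · intro y hy
      have hy' : y.1 < N + 2 := hy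
      by_cases c1 : y.1 < N
      · exact Or.inl (Or.inr (Or.inr ⟨rfl, c1⟩))
      by_cases c2 : y.1 = N + 1
      · exact Or.inr (Or.inl (Or.inl ⟨rfl, c2⟩))
      · have c3 : y.1 = N := by omega
        refine Or.inr (Or.inr ⟨Or.inr (Or.inl ⟨rfl, c3⟩), fun z hz => ?_⟩)
        have hz' : z.1 < y.1 := hz
        exact Or.inr (Or.inr ⟨rfl, by omega⟩)
    · change (⟨N + 1, _⟩ : Fin (N + 3)) < ⟨N + 2, _⟩
      rw [Fin.mk_lt_mk]
      omega
    · change (⟨N, _⟩ : Fin (N + 3)) < ⟨N + 1, _⟩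
      rw [Fin.mk_lt_mk]
      omega
    · intro h
      have h' : VN N ⟨N, by omega⟩ 2 := h
      unfold VN at h'
      simp at h'
  have h2 : ¬ Sat (RN N) (VN' N) ρ fGL := by
    rintro ⟨-, h | ⟨s, hs, hsa, t, ht, htc⟩⟩
    · have h' := h ⟨N + 1, by omega⟩ (by
        change (⟨N + 1, _⟩ : Fin (N + 3)) < ⟨N + 2, _⟩
        rw [Fin.mk_lt_mk]
        omega)
      rcases h' with h' | h'
      · have h'' : VN' N ⟨N + 1, by omega⟩ 2 := h'
        unfold VN' at h''
        simp at h''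
      · have h'' : VN' N ⟨N + 1, by omega⟩ 0 := h'
        unfold VN' at h''
        simp at h''
    · have hs' : VN' N s 0 := hsa
      have ht' : t.1 < s.1 := ht
      apply htc
      unfold VN' at hs' ⊢
      omega
  have e1 := (sat_iff _ _ _ _ _).1 (hiff (Fin (N + 3)) (RN N) inferInstance (RN_lin N) (VN N) ρ)
  have e2 := (sat_iff _ _ _ _ _).1 (hiff (Fin (N + 3)) (RN N) inferInstance (RN_lin N) (VN' N) ρ)
  refine h2 (e2.2 (hpres N N ρ ρ hN.ge ?_ (e1.1 h1)))
  refine ⟨le_rfl, ?_, ?_, ?_, Or.inl rfl, Iff.rfl⟩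
  · intro h
    have : N + 2 = N + 1 := h
    omega
  · intro h
    have : N + 2 = N := h
    omega
  · intro h
    have : N + 2 < N := h
    omega

/-! ### The logic `Grz.3` -/

/-- The diamond relativized to `¬ r`. -/
def rdia (φ : Fm) : Fm := .dia (.and (.neg 3) φ)

/-- The box relativized to `¬ r`. -/
def rbox (φ : Fm) : Fm := .box (.or (.pos 3) φ)

/-- With `a, b, c = 0, 1, 2` and the modalities relativized to `¬ r`, the formula
`◇ (a ∧ b) ∨ (□ (a ∨ b ∨ □ c) ∧ □ (¬ b ∨ □ (¬ a ∨ □ c)) ∧ (□ c ∨ ◇ (a ∧ ◇ ¬ c)))`. -/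
def fGrz : Fm :=
  .or (rdia (.and (.pos 0) (.pos 1)))
    (.and (rbox (.or (.pos 0) (.or (.pos 1) (rbox (.pos 2)))))
      (.and (rbox (.or (.neg 1) (rbox (.or (.neg 0) (rbox (.pos 2))))))
        (.or (rbox (.pos 2)) (rdia (.and (.pos 0) (rdia (.neg 2)))))))

theorem fGrz_vars : ∀ n ∈ fGrz.vars, n < 4 := by
  intro n hn
  simp only [fGrz, rdia, rbox, Fm.vars, Set.mem_union, Set.mem_singleton_iff] at hn
  omega

theorem fGrz_sat {W : Type} (R : W → W → Prop) (V : W → ℕ → Prop) (x : W) :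
    Sat R V x fGrz ↔ (∃ y, R x y ∧ ¬ V y 3 ∧ V y 0 ∧ V y 1) ∨
      ((∀ y, R x y → V y 3 ∨ V y 0 ∨ V y 1 ∨ ∀ z, R y z → V z 3 ∨ V z 2) ∧
      (∀ y, R x y → V y 3 ∨ ¬ V y 1 ∨ ∀ z, R y z → V z 3 ∨ ¬ V z 0 ∨
        ∀ t, R z t → V t 3 ∨ V t 2) ∧
      ((∀ y, R x y → V y 3 ∨ V y 2) ∨
        ∃ y, R x y ∧ ¬ V y 3 ∧ V y 0 ∧ ∃ z, R y z ∧ ¬ V z 3 ∧ ¬ V z 2)) :=
  Iff.rfl

theorem fGrz_mono : Fm.or fGrz.compl (raise fGrz) ∈ Grz3 := by
  intro W R _ ⟨hre, htr, _, hco⟩ V x
  rw [Sat, sat_compl, sat_raise]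
  by_contra hcon
  rw [not_or, not_not] at hcon
  obtain ⟨h1, h3⟩ := hcon
  rw [fGrz_sat] at h1 h3
  have hup : ∀ y n, V y n → up V y n := fun y n h => Or.inl h
  have hr : ∀ y, up V y 3 ↔ V y 3 := fun y => by
    unfold up
    simp
  rw [not_or] at h3
  obtain ⟨h3, h4⟩ := h3
  simp only [hr] at h3 h4
  have h3' : ∀ y, R x y → ¬ V y 3 → up V y 0 → up V y 1 → False :=
    fun y a b c d => h3 ⟨y, a, b, c, d⟩
  rcases h1 with ⟨y, a, b, c, d⟩ | ⟨k1, k2, k3⟩
  · exact h3' y a b (hup _ _ c) (hup _ _ d)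
  -- a point that sees a point without `c` has `a` or `b`
  have key : ∀ y t, R x y → ¬ V y 3 → R y t → ¬ V t 3 → ¬ V t 2 →
      (up V y 0 → V y 0) ∧ (up V y 1 → V y 1) := by
    intro y t hy hy3 ht ht3 ht2
    rcases k1 y hy with h | h | h | h
    · exact absurd h hy3
    · exact ⟨fun _ => h, fun h' => (h3' y hy hy3 (hup _ _ h) h').elim⟩
    · exact ⟨fun h' => (h3' y hy hy3 h' (hup _ _ h)).elim, fun _ => h⟩
    · exact ((h t ht).elim ht3 ht2).elim
  refine h4 ⟨?_, ?_, ?_⟩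
  · intro y hy
    rcases k1 y hy with h | h | h | h
    · exact Or.inl h
    · exact Or.inr (Or.inl (hup _ _ h))
    · exact Or.inr (Or.inr (Or.inl (hup _ _ h)))
    · exact Or.inr (Or.inr (Or.inr fun z hz => (h z hz).imp id (hup _ _)))
  · intro y hy
    by_contra hc
    push Not at hc
    obtain ⟨c1, c2, z, hz, c3, c4, t, ht, c5, c6⟩ := hc
    have c7 : ¬ V t 2 := fun h => c6 (hup _ _ h)
    have c8 := (key y t hy c1 (htr _ _ _ hz ht) c5 c7).2 c2
    have c9 := (key z t (htr _ _ _ hy hz) c3 ht c5 c7).1 c4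
    rcases k2 y hy with h | h | h
    · exact c1 h
    · exact h c8
    · rcases h z hz with h | h | h
      · exact c3 h
      · exact h c9
      · exact (h t ht).elim c5 c7
  · rcases k3 with h | ⟨s, hs, hs3, hs0, t, ht, ht3, ht2⟩
    · exact Or.inl fun y hy => (h y hy).imp id (hup _ _)
    by_contra hc
    rw [not_or] at hc
    obtain ⟨c1, c2⟩ := hc
    push Not at c1 c2
    obtain ⟨t', ht', t3', t2'⟩ := c1
    have t2'' : ¬ V t' 2 := fun h => t2' (hup _ _ h)
    rcases hco s t' with hst | hts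
    · exact c2 s hs hs3 (hup _ _ hs0) t' hst t3' |> t2'
    · rcases k1 t' ht' with h | h | h | h
      · exact t3' h
      · exact t2' (c2 t' ht' t3' (hup _ _ h) t' (hre _) t3')
      · rcases k2 t' ht' with h' | h' | h'
        · exact t3' h'
        · exact h' h
        · rcases h' s hts with h' | h' | h'
          · exact hs3 h'
          · exact h' hs0
          · exact (h' t ht).elim ht3 ht2
      · exact (h t' (hre _)).elim t3' t2''

/-- The reflexive order with four points, the root is the last one. -/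
def R4 (x y : Fin 4) : Prop := y ≤ x

theorem R4_lin : ReflLin R4 :=
  ⟨fun x => le_refl x, fun _ _ _ h1 h2 => le_trans h2 h1, fun _ _ h1 h2 => le_antisymm h2 h1,
    fun x y => (le_total x y).symm⟩

/-- The word `r a b c`. -/
def V4 (x : Fin 4) (i : ℕ) : Prop :=
  (i = 0 ∧ x = 2) ∨ (i = 1 ∧ x = 1) ∨ (i = 2 ∧ x = 0) ∨ (i = 3 ∧ x = 3)

/-- The word `r b ac bc`. -/
def V4' (x : Fin 4) (i : ℕ) : Prop :=
  (i = 0 ∧ x = 1) ∨ (i = 1 ∧ (x = 0 ∨ x = 2)) ∨ (i = 2 ∧ x ≤ 1) ∨ (i = 3 ∧ x = 3)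

/-- The directed bisimulation. -/
def Z4 (x x' : Fin 4) : Prop :=
  (x = 3 ∧ x' = 3) ∨ (x = 2 ∧ x' = 1) ∨ (x = 1 ∧ (x' = 0 ∨ x' = 2)) ∨ (x = 0 ∧ x' ≤ 1)

instance (x y : Fin 4) : Decidable (R4 x y) := inferInstanceAs (Decidable (y ≤ x))

instance (x : Fin 4) (i : ℕ) : Decidable (V4 x i) :=
  inferInstanceAs (Decidable ((i = 0 ∧ x = 2) ∨ (i = 1 ∧ x = 1) ∨ (i = 2 ∧ x = 0) ∨
    (i = 3 ∧ x = 3)))

instance (x : Fin 4) (i : ℕ) : Decidable (V4' x i) :=
  inferInstanceAs (Decidable ((i = 0 ∧ x = 1) ∨ (i = 1 ∧ (x = 0 ∨ x = 2)) ∨ (i = 2 ∧ x ≤ 1) ∨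
    (i = 3 ∧ x = 3)))

instance (x x' : Fin 4) : Decidable (Z4 x x') :=
  inferInstanceAs (Decidable ((x = 3 ∧ x' = 3) ∨ (x = 2 ∧ x' = 1) ∨
    (x = 1 ∧ (x' = 0 ∨ x' = 2)) ∨ (x = 0 ∧ x' ≤ 1)))

/-- Truth in a finite decidable model is decidable. -/
def decSat (V : Fin 4 → ℕ → Prop) (hV : ∀ x i, Decidable (V x i)) :
    ∀ (φ : Fm) (x : Fin 4), Decidable (Sat R4 V x φ)
  | .pos n, x => hV x n
  | .neg n, x => @instDecidableNot _ (hV x n)
  | .top, _ => isTrue trivial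
  | .bot, _ => isFalse fun h => h
  | .and φ ψ, x => @instDecidableAnd _ _ (decSat V hV φ x) (decSat V hV ψ x)
  | .or φ ψ, x => @instDecidableOr _ _ (decSat V hV φ x) (decSat V hV ψ x)
  | .dia φ, x =>
    haveI := fun y => decSat V hV φ y
    inferInstanceAs (Decidable (∃ y, R4 x y ∧ Sat R4 V y φ))
  | .box φ, x =>
    haveI := fun y => decSat V hV φ y
    inferInstanceAs (Decidable (∀ y, R4 x y → Sat R4 V y φ))

instance (φ : Fm) (x : Fin 4) : Decidable (Sat R4 V4 x φ) := decSat V4 inferInstance φ x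

instance (φ : Fm) (x : Fin 4) : Decidable (Sat R4 V4' x φ) := decSat V4' inferInstance φ x

theorem not_Grz3 : ¬ LPP Grz3 := by
  intro hL
  obtain ⟨α, -, hpos, hiff⟩ := hL {0, 1, 2} {3} (by decide) fGrz
    (by
      intro n hn
      simp only [fGrz, rdia, rbox, Fm.vars, Set.mem_union, Set.mem_singleton_iff] at hn
      have : n < 4 := by omega
      interval_cases n <;> simp)
    (by
      have h := monotone_of Grz3 fGrz fGrz_vars fGrz_mono
      simpa using h)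
  have hpres := preserve R4 R4 V4 V4' {0, 1, 2} (fun _ => Z4)
    (by
      intro n x x' hz i hi
      have hi4 : i < 4 := by
        unfold V4 at hi
        omega
      revert hi hz
      interval_cases i <;> revert x x' <;> decide)
    (by
      intro n x x' hz i hP hi
      have hi4 : i = 3 := by
        simp only [Set.mem_insert_iff, Set.mem_singleton_iff] at hP
        unfold V4' at hi
        omega
      subst hi4
      revert hi hz
      revert x x'
      decide)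
    (fun _ => by decide) (fun _ => by decide) α (by simpa using hpos) (depth α) 3 3 le_rfl
    (by decide)
  have h1 : Sat R4 V4 3 fGrz := by decide
  have h2 : ¬ Sat R4 V4' 3 fGrz := by decide
  have e1 := (sat_iff _ _ _ _ _).1 (hiff (Fin 4) R4 inferInstance R4_lin V4 3)
  have e2 := (sat_iff _ _ _ _ _).1 (hiff (Fin 4) R4 inferInstance R4_lin V4' 3)
  exact h2 (e2.2 (hpres (e1.1 h1)))

/-- Neither `GL.3` nor `Grz.3` has the Lyndon positivity property. -/
theorem result : ¬ LPP GL3 ∧ ¬ LPP Grz3 :=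
  ⟨not_GL3, not_Grz3⟩

end Pool.Agent.Results.MP_4f615a_lc.NoLPP
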